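import Pool.Agent.helper65.WB.BP

set_option autoImplicit false

/-!
# WB project (MP_07c750_an): module BLK, the diagonal for a product of blocks
-/

namespace Pool.Agent.helper65.WB

open Finset Matrix
open scoped ComplexOrder

/-- words as families of blocks -/
def BLK_e {D b l k : ℕ} (h : b * l = k + 1) :
    (Fin (k + 1) → Fin D) ≃ (Fin b → Fin l → Fin D) :=
  ((site h).symm.arrowCongr (Equiv.refl (Fin D))).trans (Equiv.curry (Fin b) (Fin l) (Fin D))

theorem BLK_e_apply {D b l k : ℕ} (h : b * l = k + 1) (x : Fin (k + 1) → Fin D) :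
    BLK_e h x = blk h x := rfl

theorem BLK_sq {α : Type} [Fintype α] (X : Matrix α α ℂ) (u : α) :
    ∑ c, ‖X u c‖ ^ 2 = ((X * Xᴴ) u u).re := by
  rw [Matrix.mul_apply, Complex.re_sum]
  refine Finset.sum_congr rfl fun c _ => ?_
  rw [Matrix.conjTranspose_apply, Complex.star_def, Complex.mul_conj, Complex.normSq_eq_norm_sq,
    Complex.ofReal_re]

theorem BLK_apply {D b l k : ℕ} (h : b * l = k + 1) (R : Fin (k + 1) → Matrix (Fin D) (Fin D) ℂ)
    (M : Matrix (Fin l → Fin D) (Fin l → Fin D) ℂ) (c z : Fin (k + 1) → Fin D) :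
    (TP R).mulVec (fun y => ∏ j, M (blk h y j) (blk h c j)) z =
      ∏ j, (TP (fun i : Fin l => R (site h (j, i))) * M) (blk h z j) (blk h c j) := by
  simp only [Matrix.mul_apply]
  rw [Finset.prod_univ_sum, Fintype.piFinset_univ]
  simp only [Matrix.mulVec, dotProduct]
  refine Fintype.sum_equiv (BLK_e h) _ _ fun y => ?_
  rw [BLK_e_apply, Finset.prod_mul_distrib]
  congr 1
  simp only [TP]
  rw [← (site h).prod_comp, Fintype.prod_prod_type]
  rfl

theorem BLK_pow {α : Type} [Fintype α] [DecidableEq α] (T ρ : Matrix α α ℂ)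
    (h : T * ρ * Tᴴ = ρ) (c : ℕ) : T ^ c * ρ * (T ^ c)ᴴ = ρ := by
  induction c with
  | zero => simp
  | succ c ih =>
    rw [pow_succ, Matrix.conjTranspose_mul]
    calc T ^ c * T * ρ * (Tᴴ * (T ^ c)ᴴ) = T ^ c * (T * ρ * Tᴴ) * (T ^ c)ᴴ := by
          simp only [Matrix.mul_assoc]
      _ = ρ := by rw [h, ih]

theorem block_diag {D b l k : ℕ} (U : Matrix (Fin D) (Fin D) ℂ)
    (hU : U ∈ Matrix.unitaryGroup (Fin D) ℂ) (h : b * l = k + 1)
    (ρ M : Matrix (Fin l → Fin D) (Fin l → Fin D) ℂ) (hM : ρ = M * Mᴴ) (htr : ρ.trace = 1)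
    (hinv : tpow U l * ρ * (tpow U l)ᴴ = ρ) (t : ℕ) :
    ∃ (j₀ : Fin b) (P : Fin b → (Fin l → Fin D) → ℝ), (∀ j u, 0 ≤ P j u) ∧
      (∀ j, ∑ u, P j u = 1) ∧ (∀ j, j ≠ j₀ → ∀ u, P j u = (ρ u u).re) ∧
      ∀ x : Fin (k + 1) → Fin D, ∑ c : Fin (k + 1) → Fin D,
        ‖((baker U)^[t] (fun y => ∏ j, M (blk h y j) (blk h c j))) x‖ ^ 2 =
          ∏ j, P j (blk h (sh^[t] x) j) := by
  have hl : 0 < l := by
    rcases Nat.eq_zero_or_pos l with h0 | h0
    · rw [h0] at h; omega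
    · exact h0
  have hr : t % (k + 1) / l < b := by
    rw [Nat.div_lt_iff_lt_mul hl, h]
    exact Nat.mod_lt _ (Nat.succ_pos k)
  set A : Fin b → Matrix (Fin l → Fin D) (Fin l → Fin D) ℂ :=
    fun j => TP (fun i : Fin l => U ^ cnt k t (site h (j, i))) with hA
  have hAU : ∀ j, A j ∈ Matrix.unitaryGroup (Fin l → Fin D) ℂ := by
    intro j
    apply TP_unitary
    intro i
    exact pow_mem hU _
  have hAA : ∀ j, (A j * M) * (A j * M)ᴴ = A j * ρ * (A j)ᴴ := by
    intro j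
    rw [Matrix.conjTranspose_mul, hM]
    simp only [Matrix.mul_assoc]
  refine ⟨⟨t % (k + 1) / l, hr⟩, fun j u => ∑ c, ‖(A j * M) u c‖ ^ 2, ?_, ?_, ?_, ?_⟩
  · intro j u
    exact Finset.sum_nonneg fun c _ => by positivity
  · intro j
    have h1 : ∑ u, ∑ c, ‖(A j * M) u c‖ ^ 2 = (A j * ρ * (A j)ᴴ).trace.re := by
      rw [Matrix.trace, Complex.re_sum]
      refine Finset.sum_congr rfl fun u _ => ?_
      rw [BLK_sq, hAA]
      rfl
    rw [h1, Matrix.trace_mul_comm, ← Matrix.mul_assoc]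
    have h2 : (A j)ᴴ * A j = 1 := by
      have := Matrix.mem_unitaryGroup_iff'.1 (hAU j)
      rwa [Matrix.star_eq_conjTranspose] at this
    rw [h2, Matrix.one_mul, htr]
    rfl
  · intro j hj u
    have hc : ∃ c : ℕ, ∀ i : Fin l, cnt k t (site h (j, i)) = c := by
      have hval : ∀ i : Fin l, (site h (j, i)).val = i.val + l * j.val := by
        intro i
        simp [site, finProdFinEquiv]
      have hne : j.val ≠ t % (k + 1) / l := fun h => hj (Fin.ext h)
      rcases lt_or_gt_of_ne hne with hlt | hgt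
      · refine ⟨t / (k + 1) + 1, fun i => ?_⟩
        unfold cnt
        rw [hval, if_pos]
        have h1 : l * (t % (k + 1) / l) ≤ t % (k + 1) := Nat.mul_div_le _ _
        have h2 : l * (j.val + 1) ≤ l * (t % (k + 1) / l) := Nat.mul_le_mul_left _ hlt
        have h3 := i.isLt
        rw [Nat.mul_add] at h2
        omega
      · refine ⟨t / (k + 1), fun i => ?_⟩
        unfold cnt
        rw [hval, if_neg, Nat.add_zero]
        have h1 : t % (k + 1) < l * (t % (k + 1) / l + 1) := Nat.lt_mul_div_succ _ hl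
        have h2 : l * (t % (k + 1) / l + 1) ≤ l * j.val := Nat.mul_le_mul_left _ hgt
        omega
    obtain ⟨c, hc⟩ := hc
    have hAj : A j = (tpow U l) ^ c := by
      have h1 : tpow U l = TP (fun _ : Fin l => U) := rfl
      rw [h1, TP_pow, hA]
      simp only [hc]
    show ∑ c, ‖(A j * M) u c‖ ^ 2 = (ρ u u).re
    rw [BLK_sq, hAA, hAj, BLK_pow _ _ hinv]
  · intro x
    rw [Finset.prod_univ_sum, Fintype.piFinset_univ]
    refine Fintype.sum_equiv (BLK_e h) _ _ fun c => ?_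
    rw [baker_iterate]
    show ‖(TP (fun i => U ^ cnt k t i)).mulVec (fun y => ∏ j, M (blk h y j) (blk h c j))
      (sh^[t] x)‖ ^ 2 = ∏ j, ‖(A j * M) (blk h (sh^[t] x) j) (blk h c j)‖ ^ 2
    rw [BLK_apply, norm_prod, Finset.prod_pow]

end Pool.Agent.helper65.WB
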