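import Pool.Agent.helper75.WB.SpecI

/-!
# Row wb:ILC (MP_bb5cc8_nt, Part I)
-/

set_option autoImplicit false

namespace Pool.Agent.WB

open Finset

/-- coordinates of `p` in the chart `(q, q')` -/
def DD34 (X0 : ℝ) (q q' : ℤ) (p : ℕ) (b : ℤ × ℤ) : Prop :=
  b.1 * q + b.2 * q' = p ∧ |(b.1 : ℝ)| ≤ X0 ∧ |(b.2 : ℝ)| ≤ X0

theorem card34 (X0 : ℝ) (hX : 1 ≤ X0) (V : Finset ℕ) (f : ℕ → ℤ × ℤ)
    (h1 : ∀ p ∈ V, |((f p).1 : ℝ)| ≤ X0 ∧ |((f p).2 : ℝ)| ≤ X0)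
    (h2 : ∀ p ∈ V, ∀ p' ∈ V, f p = f p' → p = p') : (V.card : ℝ) ≤ (2 * X0 + 1) ^ 2 := by
  have hc : V.card ≤ ((Icc (-⌊X0⌋) ⌊X0⌋) ×ˢ (Icc (-⌊X0⌋) ⌊X0⌋)).card := by
    apply Finset.card_le_card_of_injOn f
    · intro p hp
      have h := h1 p hp
      rw [Finset.mem_coe, mem_product, mem_Icc, mem_Icc, abs_le_floor, abs_le_floor]
      exact h
    · intro p hp p' hp' h
      exact h2 p hp p' hp' h
  rw [card_product, Int.card_Icc] at hc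
  have hf : (0 : ℤ) ≤ ⌊X0⌋ := Int.floor_nonneg.2 (by linarith)
  have hn : (((⌊X0⌋ + 1 - -⌊X0⌋).toNat : ℕ) : ℝ) ≤ 2 * X0 + 1 := by
    have h3 : (((⌊X0⌋ + 1 - -⌊X0⌋).toNat : ℕ) : ℤ) = 2 * ⌊X0⌋ + 1 := by
      rw [Int.toNat_of_nonneg (by linarith)]
      ring
    have h4 : (((⌊X0⌋ + 1 - -⌊X0⌋).toNat : ℕ) : ℝ) = 2 * (⌊X0⌋ : ℝ) + 1 := by
      exact_mod_cast h3
    rw [h4]
    have := Int.floor_le X0
    linarith
  calc (V.card : ℝ) ≤ (((⌊X0⌋ + 1 - -⌊X0⌋).toNat * (⌊X0⌋ + 1 - -⌊X0⌋).toNat : ℕ) : ℝ) := by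
        exact_mod_cast hc
    _ = (((⌊X0⌋ + 1 - -⌊X0⌋).toNat : ℕ) : ℝ) * (((⌊X0⌋ + 1 - -⌊X0⌋).toNat : ℕ) : ℝ) := by
        push_cast
        ring
    _ ≤ (2 * X0 + 1) * (2 * X0 + 1) := by
        apply mul_le_mul hn hn (Nat.cast_nonneg _)
        linarith
    _ = (2 * X0 + 1) ^ 2 := by ring

theorem shift34 (q q' u v u' v' n : ℤ) (hq : IsCoprime q q')
    (h1 : u * q + v * q' = n) (h2 : u' * q + v' * q' = n) :
    ∃ t : ℤ, u = u' + t * q' ∧ v = v' - t * q := by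
  by_cases hq0 : q' = 0
  · subst hq0
    have hu : IsUnit q := isCoprime_zero_right.1 hq
    have hqq : q * q = 1 := Int.isUnit_mul_self hu
    refine ⟨(v' - v) * q, ?_, ?_⟩
    · have h3 : (u - u') * q = 0 := by linarith
      have h4 : u - u' = 0 := by
        rcases mul_eq_zero.1 h3 with h | h
        · exact h
        · exact absurd h hu.ne_zero
      linarith
    · have : (v' - v) * q * q = v' - v := by rw [mul_assoc, hqq, mul_one]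
      linarith
  · have h3 : (u - u') * q = (v' - v) * q' := by linarith
    have h4 : q' ∣ (u - u') * q := ⟨v' - v, by rw [h3]; ring⟩
    have h5 : q' ∣ (u - u') := hq.symm.dvd_of_dvd_mul_right h4
    obtain ⟨t, ht⟩ := h5
    refine ⟨t, by linarith, ?_⟩
    have h6 : (v' - v) * q' = (t * q) * q' := by
      rw [← h3, ht]
      ring
    have h7 := mul_right_cancel₀ hq0 h6
    linarith

theorem same34 (p p' n n' N : ℕ) (M : ℝ) (hp : p.Prime) (hp' : p'.Prime) (hne : p ≠ p')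
    (hM : 0 ≤ M) (h1 : M ≤ (p : ℝ)) (h2 : M ≤ (p' : ℝ)) (hN : (N : ℝ) < M ^ 2)
    (hn : n ≤ N) (hn' : n' ≤ N) (h3 : (n : ZMod p) = (n' : ZMod p))
    (h4 : (n : ZMod p') = (n' : ZMod p')) : n = n' := by
  rw [ZMod.natCast_eq_natCast_iff] at h3 h4
  have h5 : n ≡ n' [MOD p * p'] := by
    rw [← Nat.modEq_and_modEq_iff_modEq_mul ((Nat.coprime_primes hp hp').2 hne)]
    exact ⟨h3, h4⟩
  have h6 : N < p * p' := by
    have : (N : ℝ) < ((p * p' : ℕ) : ℝ) := by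
      push_cast
      calc (N : ℝ) < M ^ 2 := hN
        _ = M * M := by ring
        _ ≤ (p : ℝ) * (p' : ℝ) := mul_le_mul h1 h2 hM (Nat.cast_nonneg _)
    exact_mod_cast this
  exact Nat.ModEq.eq_of_lt_of_lt h5 (by omega) (by omega)

open scoped Classical in
theorem ILC (hILA : ILA_stmt) (hICOP : ICOP_stmt) (hIZU : IZU_stmt) : ILC_stmt := by
  intro N M X0 Y a q q' E τ hX hXM hNM hqq hle hE hτ
  have hX2 : X0 ≤ X0 ^ 2 := by nlinarith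
  have hX0M : X0 < M := by nlinarith
  have hM0 : 0 < M := by linarith
  have hq0 : q' ≠ 0 := by
    intro h
    subst h
    have : q = 0 := by
      have : |q| ≤ 0 := by simpa using hle
      exact abs_eq_zero.1 (le_antisymm this (abs_nonneg _))
    subst this
    exact not_isCoprime_zero_zero hqq
  -- the coordinates
  let D : ℕ → Prop := fun p => ∃ b : ℤ × ℤ, DD34 X0 q q' p b
  let f : ℕ → ℤ × ℤ := fun p => if h : D p then h.choose else 0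
  have hf : ∀ p, D p → DD34 X0 q q' p (f p) := by
    intro p hp
    have h1 : f p = hp.choose := dif_pos hp
    rw [h1]
    exact hp.choose_spec
  let V : Finset ℕ := (prs M).filter D
  have hV : ∀ p ∈ V, p ∈ prs M ∧ DD34 X0 q q' p (f p) := by
    intro p hp
    have h := mem_filter.1 hp
    exact ⟨h.1, hf p h.2⟩
  -- the line numbers
  have hW : ∀ p : ℕ, ∃ w : ℤ, p ∈ V → |(w : ℝ)| ≤ X0 * (2 * |(q' : ℝ)| + N / |(q' : ℝ)|) ∧
      ∀ n : ℕ, 1 ≤ n → n ≤ N → (n : ZMod p) = a p →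
        ∃ u v : ℤ, u * q + v * q' = n ∧ (f p).2 * u - (f p).1 * v = w ∧
          |(u : ℝ)| ≤ |(q' : ℝ)| + N / p * X0 := by
    intro p
    by_cases hp : p ∈ V
    · obtain ⟨hp1, hp2⟩ := hV p hp
      obtain ⟨w, hw1, hw2⟩ := hILA N p (a p) q q' (f p).1 (f p).2 X0 (mem_prs.1 hp1).1.pos hqq hq0
        hle hp2.1 hp2.2.1 hp2.2.2
      exact ⟨w, fun _ => ⟨hw1, hw2⟩⟩
    · exact ⟨0, fun h => absurd h hp⟩
  choose w hw using hW
  -- the two primes of a flag are in `V`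
  have hflag : ∀ g ∈ TG X0 Y E (thr M a) (q, q'), g.1 ∈ E ∧ g.2.1 ∈ V ∧ g.2.2 ∈ V ∧
      g.2.1 ≠ g.2.2 ∧ (g.1 : ZMod g.2.1) = a g.2.1 ∧ (g.1 : ZMod g.2.2) = a g.2.2 ∧
      ∃ Δ ∈ prs Y, ((f g.2.1).1 * (f g.2.2).2 - (f g.2.2).1 * (f g.2.1).2).natAbs = Δ := by
    intro g hg
    rw [mem_TG] at hg
    obtain ⟨h1, h2, h3, h4, Δ, hΔ, x, y, x', y', e1, e2, b1, b2, b3, b4, e3⟩ := hg
    rw [mem_thr] at h2 h3
    have hD1 : D g.2.1 := ⟨(x, y), e1, b1, b2⟩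
    have hD2 : D g.2.2 := ⟨(x', y'), e2, b3, b4⟩
    have hv1 : g.2.1 ∈ V := mem_filter.2 ⟨h2.1, hD1⟩
    have hv2 : g.2.2 ∈ V := mem_filter.2 ⟨h3.1, hD2⟩
    have hc1 := (hV _ hv1).2
    have hc2 := (hV _ hv2).2
    obtain ⟨k1, k2⟩ := hIZU M X0 g.2.1 q q' x y (f g.2.1).1 (f g.2.1).2 hqq (mem_prs.1 h2.1).2.1
      hXM e1 hc1.1 b1 b2 hc1.2.1 hc1.2.2
    obtain ⟨k3, k4⟩ := hIZU M X0 g.2.2 q q' x' y' (f g.2.2).1 (f g.2.2).2 hqq
      (mem_prs.1 h3.1).2.1 hXM e2 hc2.1 b3 b4 hc2.2.1 hc2.2.2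
    refine ⟨h1, hv1, hv2, h4, h2.2, h3.2, Δ, hΔ, ?_⟩
    rw [← k1, ← k2, ← k3, ← k4]
    exact e3
  -- the shift of a flag
  have hT : ∀ g : ℕ × ℕ × ℕ, ∃ t : ℤ, g ∈ TG X0 Y E (thr M a) (q, q') → |t| ≤ τ ∧
      ∃ u v : ℤ, u * q + v * q' = g.1 ∧ (f g.2.1).2 * u - (f g.2.1).1 * v = w g.2.1 ∧
        (f g.2.2).2 * u - (f g.2.2).1 * v = w g.2.2 + t * g.2.2 := by
    intro g
    by_cases hg : g ∈ TG X0 Y E (thr M a) (q, q')
    · obtain ⟨h1, h2, h3, h4, h5, h6, -⟩ := hflag g hg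
      obtain ⟨hE1, hE2⟩ := hE _ h1
      obtain ⟨u, v, a1, a2, a3⟩ := (hw _ h2).2 g.1 hE1 hE2 h5
      obtain ⟨u', v', c1, c2, c3⟩ := (hw _ h3).2 g.1 hE1 hE2 h6
      obtain ⟨t, ht1, ht2⟩ := shift34 q q' u v u' v' g.1 hqq a1 c1
      refine ⟨t, fun _ => ⟨?_, u, v, a1, a2, ?_⟩⟩
      · have hp1 := (mem_prs.1 (hV _ h2).1).2.1
        have hp2 := (mem_prs.1 (hV _ h3).1).2.1
        have hN0 : (0 : ℝ) ≤ (N : ℝ) := Nat.cast_nonneg _
        have d1 : (N : ℝ) / (g.2.1 : ℝ) * X0 ≤ N / M * X0 := by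
          apply mul_le_mul_of_nonneg_right _ (by linarith)
          exact div_le_div_of_nonneg_left hN0 hM0 hp1
        have d2 : (N : ℝ) / (g.2.2 : ℝ) * X0 ≤ N / M * X0 := by
          apply mul_le_mul_of_nonneg_right _ (by linarith)
          exact div_le_div_of_nonneg_left hN0 hM0 hp2
        have hq'pos : 0 < |(q' : ℝ)| := abs_pos.2 (by exact_mod_cast hq0)
        have e1 : (t : ℝ) * (q' : ℝ) = (u : ℝ) - (u' : ℝ) := by
          have : t * q' = u - u' := by linarith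
          exact_mod_cast this
        have e2 : |(t : ℝ)| * |(q' : ℝ)| ≤ 2 * |(q' : ℝ)| + 2 * (N / M * X0) := by
          rw [← abs_mul, e1]
          have := abs_sub (u : ℝ) (u' : ℝ)
          linarith
        have e3 : |(t : ℝ)| ≤ (τ : ℝ) := by
          refine le_trans ?_ hτ
          rw [← sub_le_iff_le_add', le_div_iff₀ hq'pos]
          linarith
        have e4 : ((|t| : ℤ) : ℝ) ≤ ((τ : ℤ) : ℝ) := by
          push_cast
          exact e3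
        exact_mod_cast e4
      · have hc3 := (hV _ h3).2.1
        have e5 : w g.2.2 + t * (g.2.2 : ℤ) =
            (f g.2.2).2 * u' - (f g.2.2).1 * v' + t * ((f g.2.2).1 * q + (f g.2.2).2 * q') := by
          rw [c2, hc3]
        rw [e5, ht1, ht2]
        ring
    · exact ⟨0, fun h => absurd h hg⟩
  choose t ht using hT
  refine ⟨V, fun p => (f p).1, fun p => (f p).2, w, t, ⟨?_, ?_, ?_⟩, ?_, ?_, ?_⟩
  · intro p hp
    obtain ⟨h1, h2, h3, h4⟩ := hV p hp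
    obtain ⟨hp1, hp2, -⟩ := mem_prs.1 h1
    refine ⟨hp1.pos, h2, ?_⟩
    have hlt : ∀ z : ℤ, |(z : ℝ)| ≤ X0 → |z| < p := by
      intro z hz
      have : ((|z| : ℤ) : ℝ) < ((p : ℤ) : ℝ) := by
        push_cast
        linarith
      exact_mod_cast this
    exact hICOP p q q' (f p).1 (f p).2 hp1 h2 (hlt _ h3) (hlt _ h4)
  · intro g hg
    obtain ⟨h1, h2, h3, h4, h5, h6, Δ, hΔ, hΔe⟩ := hflag g hg
    refine ⟨h2, h3, ?_, (ht g hg).2⟩
    show ((f g.2.1).1 * (f g.2.2).2 - (f g.2.2).1 * (f g.2.1).2).natAbs.Prime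
    rw [hΔe]
    exact (mem_prs.1 hΔ).1
  · intro g hg h hh hgh
    obtain ⟨h1, h2, h3, h4, h5, h6, -⟩ := hflag g hg
    obtain ⟨k1, k2, k3, k4, k5, k6, -⟩ := hflag h hh
    obtain ⟨hp1, hp2, -⟩ := mem_prs.1 (hV _ h2).1
    obtain ⟨hp3, hp4, -⟩ := mem_prs.1 (hV _ h3).1
    rw [← hgh] at k5 k6
    exact same34 g.2.1 g.2.2 g.1 h.1 N M hp1 hp3 h4 hM0.le hp2 hp4 hNM (hE _ h1).2 (hE _ k1).2
      (h5.trans k5.symm) (h6.trans k6.symm)
  · intro g hg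
    obtain ⟨h1, h2, h3, h4, h5, h6, Δ, hΔ, hΔe⟩ := hflag g hg
    refine ⟨(ht g hg).1, ?_⟩
    show Y ≤ (((f g.2.1).1 * (f g.2.2).2 - (f g.2.2).1 * (f g.2.1).2).natAbs : ℝ)
    rw [hΔe]
    exact (mem_prs.1 hΔ).2.1
  · intro p hp
    obtain ⟨h1, h2, h3, h4⟩ := hV p hp
    refine ⟨h1, h3, h4, (hw p hp).1, ?_⟩
    have hpM := (mem_prs.1 h1).2.1
    have e1 : (p : ℝ) = ((f p).1 : ℝ) * (q : ℝ) + ((f p).2 : ℝ) * (q' : ℝ) := by
      exact_mod_cast h2.symm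
    have hqle : |(q : ℝ)| ≤ |(q' : ℝ)| := by exact_mod_cast hle
    have m1 : |((f p).1 : ℝ)| ≤ max |((f p).1 : ℝ)| |((f p).2 : ℝ)| := le_max_left _ _
    have m2 : |((f p).2 : ℝ)| ≤ max |((f p).1 : ℝ)| |((f p).2 : ℝ)| := le_max_right _ _
    have m3 : ((f p).1 : ℝ) * (q : ℝ) ≤ max |((f p).1 : ℝ)| |((f p).2 : ℝ)| * |(q' : ℝ)| := by
      refine le_trans (le_abs_self _) ?_
      rw [abs_mul]
      exact mul_le_mul m1 hqle (abs_nonneg _) (le_trans (abs_nonneg _) m1)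
    have m4 : ((f p).2 : ℝ) * (q' : ℝ) ≤ max |((f p).1 : ℝ)| |((f p).2 : ℝ)| * |(q' : ℝ)| := by
      refine le_trans (le_abs_self _) ?_
      rw [abs_mul]
      exact mul_le_mul m2 le_rfl (abs_nonneg _) (le_trans (abs_nonneg _) m1)
    show M ≤ 2 * |(q' : ℝ)| * max |((f p).1 : ℝ)| |((f p).2 : ℝ)|
    linarith
  · apply card34 X0 hX V f
    · intro p hp
      exact (hV p hp).2.2
    · intro p hp p' hp' h
      have h1 := (hV p hp).2.1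
      have h2 := (hV p' hp').2.1
      rw [h, h2] at h1
      exact_mod_cast h1.symm

end Pool.Agent.WB
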